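import Pool.Agent.H33.SCP1

set_option autoImplicit false

open Set Cardinal Pool.Agent.H33

namespace Pool.Agent.Results.MP_81e7df_gt.Separable

/-- `C_p(X)`: the continuous real functions as a subspace of the product `ℝ^X` -/
abbrev Cp (X : Type) [TopologicalSpace X] : Type := {f : X → ℝ // Continuous f}

theorem result (hMA : ∀ κ < (𝔠 : Cardinal.{0}), SCP1.MAk κ) (hCH : ℵ_ 1 < (𝔠 : Cardinal.{0}))
    (X : Type) [TopologicalSpace X] [T35Space X]
    (hs : ∀ D : Set (Cp X), DiscreteTopology D → D.Countable) :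
    TopologicalSpace.SeparableSpace X ∧ ∀ A : Set X, TopologicalSpace.SeparableSpace A := by
  have k := SCP1.hsep (hMA _ hCH) (X := X) fun D a b => by
    have e : D ⊆ range (Subtype.val : Cp X → X → ℝ) := fun f h => ⟨⟨f, a f h⟩, rfl⟩
    exact image_preimage_eq_of_subset e ▸ (hs (Subtype.val ⁻¹' D) (isDiscrete_iff_discreteTopology.1
      (b.preimage continuous_subtype_val.continuousOn Subtype.val_injective))).image Subtype.val
  refine ⟨?_, fun A => ?_⟩
  · obtain ⟨B, -, b1, b2⟩ := k Set.univ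
    exact ⟨B, b1, fun x => b2 (mem_univ x)⟩
  · obtain ⟨B, b0, b1, b2⟩ := k A
    refine ⟨Subtype.val ⁻¹' B, b1.preimage Subtype.val_injective, Subtype.dense_iff.2 ?_⟩
    rwa [Subtype.image_preimage_coe, inter_eq_right.2 b0]

end Pool.Agent.Results.MP_81e7df_gt.Separable
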